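import Mathlib
import Pool.Agent.Y862.GM.Stm

/-!
Correlations of the truncated Moebius function.
-/

set_option autoImplicit false

namespace Pool.Agent.Y71.GM

open Finset Pool.Agent.Y862.GM

theorem prod_mu {K : ℕ} (h : Fin K → ℕ) (y n : ℕ) :
    ∏ i, mu y (n + h i) = ∏ p ∈ pr y, loc h p n := by
  simp only [mu, loc]
  rw [prod_comm]

theorem fac {K : ℕ} (h : Fin K → ℕ) (p : ℕ) (hp : p.Prime) :
    1 + (∑ n ∈ range (p ^ 2), (loc h p n - 1)) / (p : ℝ) ^ 2 =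
      (∑ n ∈ range (p ^ 2), loc h p n) / (p : ℝ) ^ 2 := by
  have hp0 : (p : ℝ) ≠ 0 := by exact_mod_cast hp.ne_zero
  rw [Finset.sum_sub_distrib, Finset.sum_const, card_range, nsmul_eq_mul]
  push_cast
  field_simp
  ring

theorem card_odd_le {K : ℕ} (h : Fin K → ℕ) : (odd h).card ≤ (univ.image h).card :=
  card_filter_le _ _

theorem card_im_le {K : ℕ} (h : Fin K → ℕ) : (univ.image h).card ≤ K := by
  refine card_image_le.trans ?_
  rw [card_univ, Fintype.card_fin]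

theorem mem_pr {y p : ℕ} : p ∈ pr y ↔ p ≤ y ∧ p.Prime := by
  rw [pr, mem_filter, mem_range, Nat.lt_succ_iff]

/-- The local factors are at most one. -/
theorem fac_le (h2 : S_LOC) {K : ℕ} (h : Fin K → ℕ) (p : ℕ) (hp : p.Prime) :
    |(∑ n ∈ range (p ^ 2), loc h p n) / (p : ℝ) ^ 2| ≤ 1 := by
  have hp0 : (0 : ℝ) < (p : ℝ) ^ 2 := by
    have : (0 : ℝ) < p := by exact_mod_cast hp.pos
    positivity
  rw [abs_div, abs_of_pos hp0, div_le_one hp0]
  refine (abs_sum_le_sum_abs _ _).trans ?_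
  calc ∑ n ∈ range (p ^ 2), |loc h p n| ≤ ∑ _n ∈ range (p ^ 2), (1 : ℝ) :=
        Finset.sum_le_sum fun n _ => (h2 K h p hp).2.1 n
    _ = (p : ℝ) ^ 2 := by
        rw [Finset.sum_const, card_range, nsmul_eq_mul, mul_one]
        push_cast
        rfl

/-- The local factors at large primes. -/
theorem fac_big (h2 : S_LOC) {K : ℕ} (h : Fin K → ℕ) (p : ℕ) (hp : p.Prime)
    (hh : ∀ i, h i < p) (hK : 2 * K + 2 ≤ p) :
    |(∑ n ∈ range (p ^ 2), loc h p n) / (p : ℝ) ^ 2| ≤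
      Real.exp (-(2 * (odd h).card * (1 / (p : ℝ))) + 2 * K * ((p : ℝ) ^ 2)⁻¹) := by
  have hp1 : (0 : ℝ) < p := by exact_mod_cast hp.pos
  have hp0 : (0 : ℝ) < (p : ℝ) ^ 2 := by positivity
  rw [(h2 K h p hp).2.2.2 hh]
  have ho : (((odd h).card : ℕ) : ℝ) ≤ ((univ.image h).card : ℝ) := by
    exact_mod_cast card_odd_le h
  have hv : ((univ.image h).card : ℝ) ≤ K := by exact_mod_cast card_im_le h
  have hK' : 2 * (K : ℝ) + 2 ≤ p := by exact_mod_cast hK
  have hK0 : (0 : ℝ) ≤ K := Nat.cast_nonneg _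
  have ho0 : (0 : ℝ) ≤ ((odd h).card : ℝ) := Nat.cast_nonneg _
  have hv0 : (0 : ℝ) ≤ ((univ.image h).card : ℝ) := Nat.cast_nonneg _
  have hnum : 0 ≤ (p : ℝ) ^ 2 - 2 * (odd h).card * p + 2 * (odd h).card - (univ.image h).card := by
    nlinarith [mul_nonneg hp1.le (sub_nonneg.2 (ho.trans hv)), mul_nonneg hp1.le
      (sub_nonneg.2 hK')]
  rw [abs_of_nonneg (div_nonneg hnum hp0.le)]
  have h3 : ((p : ℝ) ^ 2 - 2 * (odd h).card * p + 2 * (odd h).card - (univ.image h).card) /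
      (p : ℝ) ^ 2 ≤ (-(2 * (odd h).card * (1 / (p : ℝ))) + 2 * K * ((p : ℝ) ^ 2)⁻¹) + 1 := by
    rw [div_le_iff₀ hp0]
    have e1 : ((-(2 * ((odd h).card : ℝ) * (1 / (p : ℝ))) + 2 * K * ((p : ℝ) ^ 2)⁻¹) + 1) *
        (p : ℝ) ^ 2 = (p : ℝ) ^ 2 - 2 * (odd h).card * p + 2 * K := by
      field_simp
      ring
    rw [e1]
    linarith
  exact h3.trans (Real.add_one_le_exp _)

/-- The product of the local factors. -/
theorem prod_fac (h2 : S_LOC) {CM : ℝ} (hCM : ∀ N : ℕ, 3 ≤ N →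
    |∑ p ∈ pr N, (1 : ℝ) / p - Real.log (Real.log N)| ≤ CM) {K : ℕ} (h : Fin K → ℕ) (y z : ℕ)
    (hz : 2 * K + 3 ≤ z) (hzy : z ≤ y) (hh : ∀ i, h i ≤ z) :
    |∏ p ∈ pr y, ((∑ n ∈ range (p ^ 2), loc h p n) / (p : ℝ) ^ 2)| ≤
      Real.exp (4 * K * CM + 4 * K) *
        (Real.log z / Real.log y) ^ (2 * (odd h).card) := by
  have hCM0 : 0 ≤ CM := (abs_nonneg _).trans (hCM 3 le_rfl)
  have hz3 : 3 ≤ z := by omega
  have hy3 : 3 ≤ y := by omega
  have hlz : 0 < Real.log z := Real.log_pos (by exact_mod_cast (by omega : 1 < z))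
  have hly : 0 < Real.log y := Real.log_pos (by exact_mod_cast (by omega : 1 < y))
  rw [abs_prod]
  have hstep : ∏ p ∈ pr y, |(∑ n ∈ range (p ^ 2), loc h p n) / (p : ℝ) ^ 2| ≤
      ∏ p ∈ pr y, Real.exp (if p ≤ z then 0 else
        (-(2 * (odd h).card * (1 / (p : ℝ))) + 2 * K * ((p : ℝ) ^ 2)⁻¹)) := by
    refine Finset.prod_le_prod (fun p _ => abs_nonneg _) fun p hp => ?_
    have hp' := (mem_pr.1 hp).2
    by_cases hpz : p ≤ z
    · rw [if_pos hpz, Real.exp_zero]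
      exact fac_le h2 h p hp'
    · rw [if_neg hpz]
      exact fac_big h2 h p hp' (fun i => lt_of_le_of_lt (hh i) (not_le.1 hpz)) (by omega)
  refine hstep.trans ?_
  rw [← Real.exp_sum]
  have hsum : ∑ p ∈ pr y, (if p ≤ z then 0 else
        (-(2 * (odd h).card * (1 / (p : ℝ))) + 2 * K * ((p : ℝ) ^ 2)⁻¹)) =
      -(2 * (odd h).card * ∑ p ∈ (pr y).filter (fun p => ¬ p ≤ z), (1 / (p : ℝ))) +
        2 * K * ∑ p ∈ (pr y).filter (fun p => ¬ p ≤ z), ((p : ℝ) ^ 2)⁻¹ := by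
    rw [Finset.mul_sum, Finset.mul_sum, ← Finset.sum_neg_distrib, ← Finset.sum_add_distrib,
      Finset.sum_filter]
    refine Finset.sum_congr rfl fun p _ => ?_
    by_cases hpz : p ≤ z
    · rw [if_pos hpz, if_neg (not_not.2 hpz)]
    · rw [if_neg hpz, if_pos hpz]
  have hsq : ∑ p ∈ (pr y).filter (fun p => ¬ p ≤ z), ((p : ℝ) ^ 2)⁻¹ ≤ 2 := by
    calc ∑ p ∈ (pr y).filter (fun p => ¬ p ≤ z), ((p : ℝ) ^ 2)⁻¹
        ≤ ∑ p ∈ Ioo 0 (y + 1), ((p : ℝ) ^ 2)⁻¹ := by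
          refine Finset.sum_le_sum_of_subset_of_nonneg ?_ fun p _ _ => by positivity
          intro p hp
          have := mem_pr.1 (mem_filter.1 hp).1
          rw [mem_Ioo]
          exact ⟨this.2.pos, Nat.lt_succ_iff.2 this.1⟩
      _ ≤ 2 / ((0 : ℕ) + 1) := sum_Ioo_inv_sq_le 0 (y + 1)
      _ = 2 := by norm_num
  have hmer : Real.log (Real.log y) - Real.log (Real.log z) - 2 * CM ≤
      ∑ p ∈ (pr y).filter (fun p => ¬ p ≤ z), (1 / (p : ℝ)) := by
    have e1 := Finset.sum_filter_add_sum_filter_not (pr y) (fun p => p ≤ z)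
      (fun p => (1 / (p : ℝ)))
    have e2 : (pr y).filter (fun p => p ≤ z) = pr z := by
      ext p
      rw [mem_filter, mem_pr, mem_pr]
      constructor
      · rintro ⟨⟨_, h1⟩, h2⟩
        exact ⟨h2, h1⟩
      · rintro ⟨h1, h2⟩
        exact ⟨⟨h1.trans hzy, h2⟩, h1⟩
    rw [e2] at e1
    have e3 := abs_le.1 (hCM y hy3)
    have e4 := abs_le.1 (hCM z hz3)
    linarith [e3.1, e4.2]
  have ho : (((odd h).card : ℕ) : ℝ) ≤ K := by
    exact_mod_cast (card_odd_le h).trans (card_im_le h)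
  have ho0 : (0 : ℝ) ≤ ((odd h).card : ℝ) := Nat.cast_nonneg _
  have hK0 : (0 : ℝ) ≤ K := Nat.cast_nonneg _
  have hexp : -(2 * (odd h).card * ∑ p ∈ (pr y).filter (fun p => ¬ p ≤ z), (1 / (p : ℝ))) +
        2 * K * ∑ p ∈ (pr y).filter (fun p => ¬ p ≤ z), ((p : ℝ) ^ 2)⁻¹ ≤
      (4 * K * CM + 4 * K) + ((2 * (odd h).card : ℕ) : ℝ) *
        Real.log (Real.log z / Real.log y) := by
    rw [Real.log_div hlz.ne' hly.ne']
    push_cast
    have f1 := mul_le_mul_of_nonneg_left hmer (by positivity : (0 : ℝ) ≤ 2 * (odd h).card)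
    have f2 := mul_le_mul_of_nonneg_left hsq (by positivity : (0 : ℝ) ≤ 2 * K)
    have f3 : ((odd h).card : ℝ) * CM ≤ K * CM := mul_le_mul_of_nonneg_right ho hCM0
    nlinarith
  rw [hsum]
  refine (Real.exp_le_exp.2 hexp).trans (le_of_eq ?_)
  rw [Real.exp_add, Real.exp_nat_mul, Real.exp_log (div_pos hlz hly)]

theorem t_CORR (hM : S_MERT) (h1 : S_BRUN) (h2 : S_LOC) : S_CORR := by
  intro K
  obtain ⟨CM, hCM⟩ := hM
  obtain ⟨A0, hA0⟩ := h1 (2 * K) (2 * K)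
  have hCM0 : 0 ≤ CM := (abs_nonneg _).trans (hCM 3 le_rfl)
  have hl2 : 0 < Real.log 2 := Real.log_pos (by norm_num)
  have hl2' : Real.log 2 ≤ 1 := by linarith [Real.log_two_lt_d9]
  have hlK : 0 ≤ Real.log (2 * K + 3) := Real.log_nonneg (by
    have : (0 : ℝ) ≤ K := Nat.cast_nonneg _
    linarith)
  set C2 : ℝ := 1 + Real.log (2 * K + 3) / Real.log 2 with hC2
  have hC21 : 1 ≤ C2 := by
    rw [hC2]
    have := div_nonneg hlK hl2.le
    linarith
  refine ⟨max A0 (2 * K + 3), Real.exp (4 * K * CM + 4 * K) * C2 ^ (2 * K) +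
    1 / Real.log 2 ^ (2 * K), ?_⟩
  intro y L hAy hL2 hLy Z Y hY h hh
  have hyA0 : A0 ≤ y := le_trans (le_max_left _ _) hAy
  have hyK : 2 * K + 3 ≤ y := le_trans (le_max_right _ _) hAy
  have hy3 : 3 ≤ y := by omega
  have hy3' : (3 : ℝ) ≤ y := by exact_mod_cast hy3
  have hly1 : 1 ≤ Real.log y := by
    rw [← Real.log_exp 1]
    refine Real.log_le_log (Real.exp_pos _) ?_
    linarith [Real.exp_one_lt_d9]
  have hly0 : 0 < Real.log y := by linarith
  have hlly : 0 ≤ Real.log (Real.log y) := Real.log_nonneg hly1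
  have hL2' : (2 : ℝ) ≤ L := by exact_mod_cast hL2
  have hlL : Real.log 2 ≤ Real.log L := Real.log_le_log (by norm_num) hL2'
  have hlL0 : 0 < Real.log L := lt_of_lt_of_le hl2 hlL
  have hY' : (y : ℝ) ^ (A0 * Real.log (Real.log y)) ≤ Y := by
    refine le_trans (Real.rpow_le_rpow_of_exponent_le (by linarith) ?_) hY
    refine mul_le_mul_of_nonneg_right ?_ hlly
    exact_mod_cast le_max_left _ _
  have hb := hA0 y hyA0 Z Y hY' (fun p n => loc h p n - 1)
    (fun p hp n => by rw [(h2 K h p (mem_pr.1 hp).2).1 n])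
    (fun p hp n => by
      rw [add_sub_cancel]
      exact (h2 K h p (mem_pr.1 hp).2).2.1 n)
    (fun p hp => (h2 K h p (mem_pr.1 hp).2).2.2.1)
  have e1 : ∑ n ∈ Ioc Z (Z + Y), ∏ p ∈ pr y, (1 + (loc h p n - 1)) =
      ∑ n ∈ Ioc Z (Z + Y), ∏ i, mu y (n + h i) := by
    refine Finset.sum_congr rfl fun n _ => ?_
    rw [prod_mu]
    exact Finset.prod_congr rfl fun p _ => by rw [add_sub_cancel]
  have e2 : ∏ p ∈ pr y, (1 + (∑ n ∈ range (p ^ 2), (loc h p n - 1)) / (p : ℝ) ^ 2) =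
      ∏ p ∈ pr y, ((∑ n ∈ range (p ^ 2), loc h p n) / (p : ℝ) ^ 2) :=
    Finset.prod_congr rfl fun p hp => fac h p (mem_pr.1 hp).2
  rw [e1, e2] at hb
  set z : ℕ := max L (2 * K + 3) with hz
  have hzy : z ≤ y := max_le hLy hyK
  have hm := prod_fac h2 hCM h y z (le_max_right _ _) hzy
    (fun i => (hh i).trans (le_max_left _ _))
  set o : ℕ := (odd h).card with ho
  have hoK : o ≤ K := (card_odd_le h).trans (card_im_le h)
  set r : ℝ := Real.log L / Real.log y with hr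
  have hr0 : 0 ≤ r := by positivity
  -- the error term
  have herr : 1 / Real.log y ^ (2 * K) ≤ 1 / Real.log 2 ^ (2 * K) * r ^ (2 * o) := by
    have f1 : Real.log 2 ^ (2 * K) ≤ Real.log L ^ (2 * o) :=
      calc Real.log 2 ^ (2 * K) ≤ Real.log 2 ^ (2 * o) :=
            pow_le_pow_of_le_one hl2.le hl2' (by omega)
        _ ≤ Real.log L ^ (2 * o) := pow_le_pow_left₀ hl2.le hlL _
    have f2 : Real.log y ^ (2 * o) ≤ Real.log y ^ (2 * K) :=
      pow_le_pow_right₀ hly1 (by omega)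
    rw [hr, div_pow, one_div_mul_eq_div, div_div, div_le_div_iff₀ (by positivity) (by positivity)]
    rw [one_mul]
    calc Real.log y ^ (2 * o) * Real.log 2 ^ (2 * K)
        ≤ Real.log y ^ (2 * K) * Real.log L ^ (2 * o) := by gcongr
      _ = _ := by ring
  -- the main term
  have hlz : Real.log z ≤ C2 * Real.log L := by
    have g1 : Real.log z ≤ Real.log L + Real.log (2 * K + 3) := by
      have hK3 : (0 : ℝ) < 2 * (K : ℝ) + 3 := by positivity
      rcases le_total L (2 * K + 3) with hc | hc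
      · rw [hz, max_eq_right hc]
        push_cast
        linarith
      · rw [hz, max_eq_left hc]
        linarith
    have g2 : Real.log (2 * K + 3) ≤ Real.log (2 * K + 3) / Real.log 2 * Real.log L := by
      rw [div_mul_eq_mul_div, le_div_iff₀ hl2]
      exact mul_le_mul_of_nonneg_left hlL hlK
    rw [hC2, add_mul, one_mul]
    linarith
  have hlz0 : 0 ≤ Real.log z := Real.log_natCast_nonneg z
  have hmain : Real.exp (4 * K * CM + 4 * K) * (Real.log z / Real.log y) ^ (2 * o) ≤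
      Real.exp (4 * K * CM + 4 * K) * C2 ^ (2 * K) * r ^ (2 * o) := by
    rw [mul_assoc (Real.exp _)]
    refine mul_le_mul_of_nonneg_left ?_ (Real.exp_pos _).le
    calc (Real.log z / Real.log y) ^ (2 * o) ≤ (C2 * r) ^ (2 * o) := by
          refine pow_le_pow_left₀ (by positivity) ?_ _
          rw [hr, ← mul_div_assoc]
          gcongr
      _ = C2 ^ (2 * o) * r ^ (2 * o) := mul_pow _ _ _
      _ ≤ C2 ^ (2 * K) * r ^ (2 * o) := by
          gcongr
  have hfin := abs_sub_abs_le_abs_sub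
    ((∑ n ∈ Ioc Z (Z + Y), ∏ i, mu y (n + h i)) / (Y : ℝ))
    (∏ p ∈ pr y, ((∑ n ∈ range (p ^ 2), loc h p n) / (p : ℝ) ^ 2))
  calc |(∑ n ∈ Ioc Z (Z + Y), ∏ i, mu y (n + h i)) / (Y : ℝ)|
      ≤ |∏ p ∈ pr y, ((∑ n ∈ range (p ^ 2), loc h p n) / (p : ℝ) ^ 2)| +
        1 / Real.log y ^ (2 * K) := by linarith
    _ ≤ Real.exp (4 * K * CM + 4 * K) * C2 ^ (2 * K) * r ^ (2 * o) +
        1 / Real.log 2 ^ (2 * K) * r ^ (2 * o) := add_le_add (hm.trans hmain) herr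
    _ = _ := by ring

end Pool.Agent.Y71.GM
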